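import Mathlib

/-!
# Averaged mixing matrices of paths
-/

open Finset Real

namespace Pool.Agent.R667.MM

/-- The adjacency matrix of the path on `n` vertices. -/
def adj (n : ℕ) : Matrix (Fin n) (Fin n) ℂ :=
  fun a b => if (a : ℕ) + 1 = b ∨ (b : ℕ) + 1 = a then 1 else 0

/-- The continuous-time quantum walk `U(t) = exp(i t A)` on the path. -/
noncomputable def walk (n : ℕ) (t : ℝ) : Matrix (Fin n) (Fin n) ℂ :=
  NormedSpace.exp ((Complex.I * (t : ℂ)) • adj n)

/-- The mixing matrix `M(t)`, with entries `|U(t)_{ab}|^2`. -/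
noncomputable def mixing (n : ℕ) (t : ℝ) : Matrix (Fin n) (Fin n) ℝ :=
  fun a b => ‖walk n t a b‖ ^ 2

/-- The mixing matrix averaged against the density `f`. -/
noncomputable def avgMixing (n : ℕ) (f : ℝ → ℝ) : Matrix (Fin n) (Fin n) ℝ :=
  fun a b => ∫ s, f s * mixing n s a b

noncomputable def E (s : ℤ) : ℝ := if Even s then 1 else 0

noncomputable def dl (n : ℕ) (s : ℤ) : ℝ := if (2 * (n + 1) : ℤ) ∣ s then 1 else 0

theorem E_congr {s s' : ℤ} (h : Even s ↔ Even s') : E s = E s' := by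
  unfold E
  simp only [h]

theorem cos_sq_half (s : ℤ) : cos (π * s / 2) ^ 2 = E s := by
  have h : cos (π * s / 2) ^ 2 = 1 / 2 + cos (2 * (π * s / 2)) / 2 := cos_sq _
  rw [h, show 2 * (π * s / 2) = s * π by ring, Real.cos_int_mul_pi]
  unfold E
  split_ifs with hs
  · rw [hs.neg_one_zpow]; norm_num
  · rw [(Int.not_even_iff_odd.1 hs).neg_one_zpow]; norm_num

theorem cos_sum (n : ℕ) (s : ℤ) :
    ∑ a : Fin n, cos (π * ((a : ℝ) + 1) * s / (n + 1)) = (n + 1) * dl n s - E s := by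
  have hn : (n : ℝ) + 1 ≠ 0 := by positivity
  rw [Fin.sum_univ_eq_sum_range (fun a => cos (π * ((a : ℝ) + 1) * s / (n + 1))) n]
  by_cases hd : (2 * (n + 1) : ℤ) ∣ s
  · obtain ⟨k, rfl⟩ := hd
    have h1 : ∀ a ∈ range n, cos (π * ((a : ℝ) + 1) * ((2 * (n + 1) * k : ℤ) : ℝ) / (n + 1)) = 1 := by
      intro a _
      have : π * ((a : ℝ) + 1) * ((2 * (n + 1) * k : ℤ) : ℝ) / (n + 1) =
          (((a + 1) * k : ℤ) : ℝ) * (2 * π) := by
        push_cast
        field_simp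
      rw [this, Real.cos_int_mul_two_pi]
    rw [sum_congr rfl h1]
    have h2 : Even (2 * ((n : ℤ) + 1) * k) := by
      rw [mul_assoc]; exact even_two_mul _
    simp [dl, E, h2]
  · set x : ℝ := π * s / (n + 1) with hx
    have hs : sin (x / 2) ≠ 0 := by
      intro h
      rw [Real.sin_eq_zero_iff] at h
      obtain ⟨k, hk⟩ := h
      apply hd
      refine ⟨k, ?_⟩
      have h3 : (s : ℝ) = 2 * (n + 1) * k := by
        rw [hx] at hk
        field_simp at hk
        have hpi := Real.pi_pos.ne'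
        nlinarith [hk]
      exact_mod_cast h3
    have h1 := Real.sin_mul_sum_cos n x x
    have h2 : ∀ a : ℕ, π * ((a : ℝ) + 1) * s / (n + 1) = x * a + x := by
      intro a
      rw [hx]; ring
    simp only [h2]
    have h3 : ((n : ℝ) - 1) * x / 2 + x = π * s / 2 := by
      rw [hx]; field_simp; ring
    have h4 : (n : ℝ) * x / 2 = π * s / 2 - x / 2 := by
      rw [hx]; field_simp; ring
    rw [h3, h4, Real.sin_sub] at h1
    have h5 : sin (π * s / 2) * cos (π * s / 2) = 0 := by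
      have := Real.sin_two_mul (π * s / 2)
      rw [show 2 * (π * s / 2) = s * π by ring, Real.sin_int_mul_pi] at this
      linarith
    have h6 : sin (x / 2) * ∑ i ∈ range n, cos (x * i + x) =
        sin (x / 2) * (- cos (π * s / 2) ^ 2) := by
      rw [h1]
      linear_combination cos (x / 2) * h5
    rw [mul_left_cancel₀ hs h6, cos_sq_half]
    simp [dl, hd]

/-- The matrix of eigenvectors. -/
noncomputable def S (n : ℕ) (a k : Fin n) : ℝ :=
  √(2 / (n + 1)) * sin (π * ((a : ℝ) + 1) * ((k : ℝ) + 1) / (n + 1))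

/-- The eigenvalues. -/
noncomputable def th (n : ℕ) (k : Fin n) : ℝ := 2 * cos (π * ((k : ℝ) + 1) / (n + 1))

theorem S_symm (n : ℕ) (a k : Fin n) : S n a k = S n k a := by
  unfold S
  congr 2
  ring

theorem S_mul (n : ℕ) (a p q : Fin n) : S n a p * S n a q = 1 / (n + 1) *
    (cos (π * ((a : ℝ) + 1) * (((p : ℤ) - q : ℤ) : ℝ) / (n + 1)) -
      cos (π * ((a : ℝ) + 1) * (((p : ℤ) + q + 2 : ℤ) : ℝ) / (n + 1))) := by
  unfold S
  have h1 : √(2 / ((n : ℝ) + 1)) * √(2 / ((n : ℝ) + 1)) = 2 / (n + 1) :=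
    Real.mul_self_sqrt (by positivity)
  set u := π * ((a : ℝ) + 1) * ((p : ℝ) + 1) / (n + 1) with hu
  set v := π * ((a : ℝ) + 1) * ((q : ℝ) + 1) / (n + 1) with hv
  have h2 : π * ((a : ℝ) + 1) * (((p : ℤ) - q : ℤ) : ℝ) / (n + 1) = u - v := by
    rw [hu, hv]; push_cast; ring
  have h3 : π * ((a : ℝ) + 1) * (((p : ℤ) + q + 2 : ℤ) : ℝ) / (n + 1) = u + v := by
    rw [hu, hv]; push_cast; ring
  rw [h2, h3, cos_sub, cos_add]
  linear_combination (sin u * sin v) * h1

theorem D_formula (n : ℕ) (j : ℤ) (p q : Fin n) :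
    ∑ a : Fin n, cos (π * ((a : ℝ) + 1) * j / (n + 1)) * (S n a p * S n a q) =
      (dl n (j + (p - q)) + dl n (j - (p - q)) - dl n (j + (p + q + 2)) -
        dl n (j - (p + q + 2))) / 2 := by
  have hn : (n : ℝ) + 1 ≠ 0 := by positivity
  have h1 : ∀ a : Fin n, cos (π * ((a : ℝ) + 1) * j / (n + 1)) * (S n a p * S n a q) =
      1 / (2 * (n + 1)) * (cos (π * ((a : ℝ) + 1) * ((j + (p - q) : ℤ) : ℝ) / (n + 1)) +
        cos (π * ((a : ℝ) + 1) * ((j - (p - q) : ℤ) : ℝ) / (n + 1)) -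
        cos (π * ((a : ℝ) + 1) * ((j + (p + q + 2) : ℤ) : ℝ) / (n + 1)) -
        cos (π * ((a : ℝ) + 1) * ((j - (p + q + 2) : ℤ) : ℝ) / (n + 1))) := by
    intro a
    rw [S_mul]
    set u := π * ((a : ℝ) + 1) * j / (n + 1) with hu
    set v := π * ((a : ℝ) + 1) * (((p : ℤ) - q : ℤ) : ℝ) / (n + 1) with hv
    set w := π * ((a : ℝ) + 1) * (((p : ℤ) + q + 2 : ℤ) : ℝ) / (n + 1) with hw
    have e1 : π * ((a : ℝ) + 1) * ((j + (p - q) : ℤ) : ℝ) / (n + 1) = u + v := by
      rw [hu, hv]; push_cast; ring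
    have e2 : π * ((a : ℝ) + 1) * ((j - (p - q) : ℤ) : ℝ) / (n + 1) = u - v := by
      rw [hu, hv]; push_cast; ring
    have e3 : π * ((a : ℝ) + 1) * ((j + (p + q + 2) : ℤ) : ℝ) / (n + 1) = u + w := by
      rw [hu, hw]; push_cast; ring
    have e4 : π * ((a : ℝ) + 1) * ((j - (p + q + 2) : ℤ) : ℝ) / (n + 1) = u - w := by
      rw [hu, hw]; push_cast; ring
    rw [e1, e2, e3, e4, cos_add, cos_sub, cos_add, cos_sub]
    field_simp
    ring
  rw [sum_congr rfl (fun a _ => h1 a), ← mul_sum, sum_sub_distrib, sum_sub_distrib, sum_add_distrib,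
    cos_sum, cos_sum, cos_sum, cos_sum]
  have f1 : E (j + ((p : ℤ) - q)) = E (j + ((p : ℤ) + q + 2)) :=
    E_congr (by rw [Int.even_add, Int.even_sub, Int.even_add, Int.even_add, Int.even_add]; simp)
  have f2 : E (j - ((p : ℤ) - q)) = E (j - ((p : ℤ) + q + 2)) :=
    E_congr (by rw [Int.even_sub, Int.even_sub, Int.even_sub, Int.even_add, Int.even_add]; simp)
  rw [f1, f2]
  field_simp
  ring

theorem S_orth (n : ℕ) (p q : Fin n) : ∑ a : Fin n, S n a p * S n a q = if p = q then 1 else 0 := by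
  have h := D_formula n 0 p q
  have h1 : ∀ a : Fin n, cos (π * ((a : ℝ) + 1) * ((0 : ℤ) : ℝ) / (n + 1)) = 1 := by
    intro a; simp
  simp only [h1, one_mul] at h
  rw [h]
  have hp := p.2
  have hq := q.2
  have hnd : ∀ s : ℤ, -(2 * (n + 1)) < s → s < 2 * (n + 1) → (dl n s = if s = 0 then 1 else 0) := by
    intro s hs1 hs2
    unfold dl
    by_cases h0 : s = 0
    · simp [h0]
    · rw [if_neg h0, if_neg]
      intro hd
      exact h0 (Int.eq_zero_of_abs_lt_dvd hd (abs_lt.2 ⟨hs1, hs2⟩))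
  rw [hnd _ (by omega) (by omega), hnd _ (by omega) (by omega), hnd _ (by omega) (by omega),
    hnd _ (by omega) (by omega)]
  have e3 : ¬ (0 + ((p : ℤ) + q + 2) = 0) := by omega
  have e4 : ¬ (0 - ((p : ℤ) + q + 2) = 0) := by omega
  rw [if_neg e3, if_neg e4]
  by_cases hpq : p = q
  · subst hpq
    simp
  · have hne : (p : ℤ) ≠ q := by
      intro h
      exact hpq (Fin.ext (by exact_mod_cast h))
    rw [if_neg hpq, if_neg (by omega), if_neg (by omega)]
    norm_num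

theorem adj_mul (n : ℕ) (a k : Fin n) :
    ∑ b : Fin n, (if (a : ℕ) + 1 = b ∨ (b : ℕ) + 1 = a then (1 : ℝ) else 0) * S n b k =
      th n k * S n a k := by
  have hn : (n : ℝ) + 1 ≠ 0 := by positivity
  let g : ℕ → ℝ := fun b => √(2 / (n + 1)) * sin (π * ((b : ℝ) + 1) * ((k : ℝ) + 1) / (n + 1))
  have h1 : ∀ b : Fin n, (if (a : ℕ) + 1 = b ∨ (b : ℕ) + 1 = a then (1 : ℝ) else 0) * S n b k =
      (fun b : ℕ => (if (a : ℕ) + 1 = b then g b else 0) + (if b + 1 = (a : ℕ) then g b else 0)) b := by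
    intro b
    change (if (a : ℕ) + 1 = b ∨ (b : ℕ) + 1 = a then (1 : ℝ) else 0) * g b =
      (if (a : ℕ) + 1 = b then g b else 0) + (if (b : ℕ) + 1 = (a : ℕ) then g b else 0)
    by_cases h1 : (a : ℕ) + 1 = b
    · have h2 : ¬ ((b : ℕ) + 1 = a) := by omega
      simp [h1, h2]
    · by_cases h2 : (b : ℕ) + 1 = a
      · simp [h1, h2]
      · simp [h1, h2]
  rw [sum_congr rfl (fun b _ => h1 b), Fin.sum_univ_eq_sum_range
    (fun b : ℕ => (if (a : ℕ) + 1 = b then g b else 0) + (if b + 1 = (a : ℕ) then g b else 0)) n,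
    sum_add_distrib]
  have h2 : ∑ b ∈ range n, (if (a : ℕ) + 1 = b then g b else 0) = g (a + 1) := by
    rw [sum_ite_eq]
    split_ifs with h
    · rfl
    · have ha := a.2
      rw [mem_range] at h
      have : (a : ℕ) + 1 = n := by omega
      rw [this]
      have e : π * ((n : ℝ) + 1) * ((k : ℝ) + 1) / (n + 1) = ((k + 1 : ℕ) : ℝ) * π := by
        push_cast
        field_simp
      change 0 = √(2 / (n + 1)) * sin (π * ((n : ℝ) + 1) * ((k : ℝ) + 1) / (n + 1))
      rw [e, Real.sin_nat_mul_pi, mul_zero]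
  have h3 : ∑ b ∈ range n, (if b + 1 = (a : ℕ) then g b else 0) =
      √(2 / (n + 1)) * sin (π * (a : ℝ) * ((k : ℝ) + 1) / (n + 1)) := by
    rcases Nat.eq_zero_or_pos (a : ℕ) with h0 | h0
    · rw [h0]
      simp
    · obtain ⟨a', ha'⟩ : ∃ a', (a : ℕ) = a' + 1 := ⟨(a : ℕ) - 1, by omega⟩
      have h4 : ∀ b ∈ range n, (if b + 1 = (a : ℕ) then g b else 0) =
          (if a' = b then g b else 0) := by
        intro b _
        by_cases hb : a' = b
        · rw [if_pos hb, if_pos (by omega)]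
        · rw [if_neg hb, if_neg (by omega)]
      have ha := a.2
      rw [sum_congr rfl h4, sum_ite_eq, if_pos (mem_range.2 (by omega)), ha']
      simp only [g]
      push_cast
      ring_nf
  rw [h2, h3]
  have e1 : g ((a : ℕ) + 1) = √(2 / (n + 1)) *
      sin (π * ((a : ℝ) + 1) * ((k : ℝ) + 1) / (n + 1) + π * ((k : ℝ) + 1) / (n + 1)) := by
    simp only [g]
    congr 2
    push_cast
    ring
  have e2 : √(2 / ((n : ℝ) + 1)) * sin (π * (a : ℝ) * ((k : ℝ) + 1) / (n + 1)) = √(2 / (n + 1)) *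
      sin (π * ((a : ℝ) + 1) * ((k : ℝ) + 1) / (n + 1) - π * ((k : ℝ) + 1) / (n + 1)) := by
    congr 2
    ring
  rw [e1, e2, sin_add, sin_sub]
  unfold th S
  ring

noncomputable def Sm (n : ℕ) : Matrix (Fin n) (Fin n) ℂ := fun a k => (S n a k : ℂ)

theorem Sm_sq (n : ℕ) : Sm n * Sm n = 1 := by
  ext a b
  rw [Matrix.mul_apply, Matrix.one_apply]
  have h := S_orth n a b
  have h2 : ∀ k, Sm n a k * Sm n k b = ((S n k a * S n k b : ℝ) : ℂ) := by
    intro k
    simp only [Sm]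
    rw [S_symm n a k]
    push_cast
    ring
  rw [sum_congr rfl (fun k _ => h2 k), ← Complex.ofReal_sum, h]
  split_ifs <;> simp

theorem adj_Sm (n : ℕ) : adj n * Sm n = Sm n * Matrix.diagonal (fun k => (th n k : ℂ)) := by
  ext a k
  rw [Matrix.mul_diagonal, Matrix.mul_apply]
  have h := adj_mul n a k
  have h2 : ∀ b, adj n a b * Sm n b k =
      (((if (a : ℕ) + 1 = b ∨ (b : ℕ) + 1 = a then (1 : ℝ) else 0) * S n b k : ℝ) : ℂ) := by
    intro b
    simp only [Sm, adj]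
    push_cast
    split_ifs <;> simp
  rw [sum_congr rfl (fun k _ => h2 k), ← Complex.ofReal_sum, h]
  simp only [Sm]
  push_cast
  ring

theorem walk_eq (n : ℕ) (t : ℝ) (a b : Fin n) :
    walk n t a b = ∑ k, ((S n a k * S n k b : ℝ) : ℂ) * Complex.exp ((th n k * t : ℝ) * Complex.I) := by
  have hu : IsUnit (Sm n) := ⟨⟨Sm n, Sm n, Sm_sq n, Sm_sq n⟩, rfl⟩
  have hinv : (Sm n)⁻¹ = Sm n := Matrix.inv_eq_right_inv (Sm_sq n)
  have h1 : adj n = Sm n * Matrix.diagonal (fun k => (th n k : ℂ)) * (Sm n)⁻¹ := by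
    rw [hinv, ← adj_Sm, mul_assoc, Sm_sq, mul_one]
  have h2 : (Complex.I * (t : ℂ)) • adj n = Sm n *
      Matrix.diagonal (fun k => ((th n k * t : ℝ) : ℂ) * Complex.I) * (Sm n)⁻¹ := by
    rw [h1, ← Matrix.smul_mul, ← Matrix.mul_smul]
    congr 2
    ext i j
    rw [Matrix.smul_apply, Matrix.diagonal_apply, Matrix.diagonal_apply]
    split_ifs
    · rw [smul_eq_mul]; push_cast; ring
    · simp
  unfold walk
  rw [h2, Matrix.exp_conj _ _ hu, Matrix.exp_diagonal, hinv, Matrix.mul_apply]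
  refine sum_congr rfl fun k _ => ?_
  rw [Matrix.mul_diagonal]
  simp only [Sm, Pi.coe_exp, ← Complex.exp_eq_exp_ℂ]
  push_cast
  ring

end Pool.Agent.R667.MM
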