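import Pool.Agent.R667.MM.Main

/-!
# Averaged mixing matrices of paths: no rank one when `n + 1` is divisible by 6, 15 or 21
-/

open Finset Real MeasureTheory

namespace Pool.Agent.R667.MM

theorem mixing_continuous (n : ℕ) (a b : Fin n) : Continuous fun t => mixing n t a b := by
  simp only [mixing_eq]
  fun_prop

theorem row_sum (n : ℕ) (t : ℝ) (a : Fin n) : ∑ b, mixing n t a b = 1 := by
  simp only [mixing_eq]
  rw [sum_comm]
  have h1 : ∀ p : Fin n, ∑ b : Fin n, ∑ q : Fin n, (S n a p * S n a q) * (S n b p * S n b q) *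
      cos ((th n p - th n q) * t) = S n p a * S n p a := by
    intro p
    rw [sum_comm]
    have h2 : ∀ q : Fin n, ∑ b : Fin n, (S n a p * S n a q) * (S n b p * S n b q) *
        cos ((th n p - th n q) * t) =
        (S n a p * S n a q) * cos ((th n p - th n q) * t) * (if p = q then 1 else 0) := by
      intro q
      rw [← S_orth n p q, mul_sum]
      exact sum_congr rfl fun b _ => by ring
    rw [sum_congr rfl fun q _ => h2 q]
    simp only [mul_ite, mul_one, mul_zero]
    rw [sum_ite_eq, if_pos (mem_univ p)]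
    simp [S_symm n a p]
  rw [sum_congr rfl fun p _ => h1 p, S_orth, if_pos rfl]

theorem mixing_nonneg (n : ℕ) (t : ℝ) (a b : Fin n) : 0 ≤ mixing n t a b := by
  unfold mixing; positivity

theorem mixing_le (n : ℕ) (t : ℝ) (a b : Fin n) : mixing n t a b ≤ 1 := by
  rw [← row_sum n t a]
  exact single_le_sum (fun b _ => mixing_nonneg n t a b) (mem_univ b)

theorem mixing_symm (n : ℕ) (t : ℝ) (a b : Fin n) : mixing n t a b = mixing n t b a := by
  rw [mixing_eq, mixing_eq]
  exact sum_congr rfl fun p _ => sum_congr rfl fun q _ => by ring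

section

variable {n : ℕ} {f : ℝ → ℝ}

theorem integrable_mixing (hf : Integrable f) (a b : Fin n) :
    Integrable fun s => f s * mixing n s a b := by
  refine hf.mul_bdd (c := 1) (mixing_continuous n a b).aestronglyMeasurable
    (Filter.Eventually.of_forall fun s => ?_)
  rw [Real.norm_of_nonneg (mixing_nonneg n s a b)]
  exact mixing_le n s a b

theorem avg_row_sum (hf : Integrable f) (h1 : ∫ s, f s = 1) (a : Fin n) :
    ∑ b, avgMixing n f a b = 1 := by
  unfold avgMixing
  rw [← integral_finsetSum _ (fun b _ => integrable_mixing hf a b)]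
  simp only [← mul_sum, row_sum, mul_one]
  exact h1

theorem avg_symm (a b : Fin n) : avgMixing n f a b = avgMixing n f b a := by
  unfold avgMixing
  simp only [mixing_symm n _ a b]

/-- Rank at most one forces the average to be flat. -/
theorem flat_of_rank (hf : Integrable f) (h1 : ∫ s, f s = 1) (hr : (avgMixing n f).rank < 2)
    (a b : Fin n) : avgMixing n f a b = 1 / n := by
  set M := avgMixing n f with hM
  have hminor : ∀ a b c d : Fin n, M a c * M b d = M a d * M b c := by
    intro a b c d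
    by_contra hne
    have hle := Matrix.rank_submatrix_le M ![a, b] ![c, d]
    have hunit : IsUnit (M.submatrix ![a, b] ![c, d]) := by
      rw [Matrix.isUnit_iff_isUnit_det, Matrix.det_fin_two, isUnit_iff_ne_zero]
      simp only [Matrix.submatrix_apply, Matrix.cons_val_zero, Matrix.cons_val_one]
      exact sub_ne_zero.2 hne
    rw [Matrix.rank_of_isUnit _ hunit, Fintype.card_fin] at hle
    omega
  have hrow : ∀ a b c : Fin n, M a c = M b c := by
    intro a b c
    have h2 : ∑ d, M a c * M b d = ∑ d, M a d * M b c := sum_congr rfl fun d _ => hminor a b c d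
    rw [← mul_sum, ← sum_mul, avg_row_sum hf h1, avg_row_sum hf h1, mul_one, one_mul] at h2
    exact h2
  have hall : ∀ c : Fin n, M a c = M a b := by
    intro c
    rw [hrow a b c, hM, avg_symm b c, ← hM, hrow c a b]
  have hsum := avg_row_sum hf h1 a
  rw [← hM, sum_congr rfl fun c _ => hall c, sum_const, card_univ, Fintype.card_fin,
    nsmul_eq_mul] at hsum
  have hn : (n : ℝ) ≠ 0 := by
    intro h
    rw [h, zero_mul] at hsum
    norm_num at hsum
  field_simp
  linarith

theorem expect (hf : Integrable f) (hflat : ∀ a b : Fin n, avgMixing n f a b = 1 / n)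
    {k l : Fin n} (hkl : (l : ℕ) < k) :
    ∫ s, f s * cos ((th n k - th n l) * s) = -(1 / n) * E ((k : ℤ) - l) := by
  have hk := k.2
  have hl := l.2
  have h1 : ∀ s, f s * cos ((th n k - th n l) * s) =
      ∑ a : Fin n, ∑ b : Fin n, -(cos (π * ((a : ℝ) + 1) * (((k : ℤ) - l : ℤ) : ℝ) / (n + 1)) *
      cos (π * ((b : ℝ) + 1) * (((k : ℤ) + l + 2 : ℤ) : ℝ) / (n + 1))) * (f s * mixing n s a b) := by
    intro s
    have h2 := key n hkl s
    rw [← neg_neg (cos ((th n k - th n l) * s)), ← h2, mul_neg, mul_sum, ← sum_neg_distrib]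
    refine sum_congr rfl fun a _ => ?_
    rw [mul_sum, ← sum_neg_distrib]
    refine sum_congr rfl fun b _ => ?_
    ring
  simp only [h1]
  rw [integral_finsetSum _ (fun a _ => integrable_finsetSum _ fun b _ =>
    (integrable_mixing hf a b).const_mul _)]
  have h3 : ∀ a : Fin n, ∫ s, ∑ b : Fin n,
      -(cos (π * ((a : ℝ) + 1) * (((k : ℤ) - l : ℤ) : ℝ) / (n + 1)) *
      cos (π * ((b : ℝ) + 1) * (((k : ℤ) + l + 2 : ℤ) : ℝ) / (n + 1))) * (f s * mixing n s a b) =
      ∑ b : Fin n, -(cos (π * ((a : ℝ) + 1) * (((k : ℤ) - l : ℤ) : ℝ) / (n + 1)) *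
      cos (π * ((b : ℝ) + 1) * (((k : ℤ) + l + 2 : ℤ) : ℝ) / (n + 1))) * (1 / n) := by
    intro a
    rw [integral_finsetSum _ (fun b _ => (integrable_mixing hf a b).const_mul _)]
    refine sum_congr rfl fun b _ => ?_
    rw [integral_const_mul]
    congr 1
    exact hflat a b
  rw [sum_congr rfl fun a _ => h3 a]
  have h4 : ∑ a : Fin n, ∑ b : Fin n,
      -(cos (π * ((a : ℝ) + 1) * (((k : ℤ) - l : ℤ) : ℝ) / (n + 1)) *
      cos (π * ((b : ℝ) + 1) * (((k : ℤ) + l + 2 : ℤ) : ℝ) / (n + 1))) * (1 / n : ℝ) =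
      -(1 / n) * ((∑ a : Fin n, cos (π * ((a : ℝ) + 1) * (((k : ℤ) - l : ℤ) : ℝ) / (n + 1))) *
      (∑ b : Fin n, cos (π * ((b : ℝ) + 1) * (((k : ℤ) + l + 2 : ℤ) : ℝ) / (n + 1)))) := by
    rw [sum_mul_sum, mul_sum]
    refine sum_congr rfl fun a _ => ?_
    rw [mul_sum]
    refine sum_congr rfl fun b _ => ?_
    ring
  rw [h4, cos_sum, cos_sum, dl_eq_zero (by omega) (by omega) (by omega) (by omega),
    dl_eq_zero (by omega) (by omega) (by omega) (by omega)]
  have h5 : E ((k : ℤ) + l + 2) = E ((k : ℤ) - l) :=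
    E_congr (by rw [Int.even_add, Int.even_add, Int.even_sub]; simp)
  rw [h5]
  have h6 : E ((k : ℤ) - l) * E ((k : ℤ) - l) = E ((k : ℤ) - l) := by
    unfold E
    split_ifs <;> norm_num
  linear_combination (-(1 / n : ℝ)) * h6

/-- Two equal differences of eigenvalues of different parities exclude rank one. -/
theorem conflict (hf : Integrable f) (h1 : ∫ s, f s = 1) (k l k' l' : ℕ) (hl : 0 < l) (hl' : 0 < l')
    (hkl : l < k) (hkl' : l' < k') (hk : k ≤ n) (hk' : k' ≤ n) (he : Even (k + l))
    (ho : ¬ Even (k' + l'))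
    (hth : cos (π * k / (n + 1)) - cos (π * l / (n + 1)) =
      cos (π * k' / (n + 1)) - cos (π * l' / (n + 1))) : 2 ≤ (avgMixing n f).rank := by
  by_contra hr
  have hflat := flat_of_rank hf h1 (not_le.1 hr)
  obtain ⟨k, rfl⟩ : ∃ x, k = x + 1 := ⟨k - 1, by omega⟩
  obtain ⟨l, rfl⟩ : ∃ x, l = x + 1 := ⟨l - 1, by omega⟩
  obtain ⟨k', rfl⟩ : ∃ x, k' = x + 1 := ⟨k' - 1, by omega⟩
  obtain ⟨l', rfl⟩ : ∃ x, l' = x + 1 := ⟨l' - 1, by omega⟩
  have e1 := expect (k := ⟨k, by omega⟩) (l := ⟨l, by omega⟩) hf hflat (by simpa using hkl)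
  have e2 := expect (k := ⟨k', by omega⟩) (l := ⟨l', by omega⟩) hf hflat (by simpa using hkl')
  have hth' : th n ⟨k, by omega⟩ - th n ⟨l, by omega⟩ = th n ⟨k', by omega⟩ - th n ⟨l', by omega⟩ := by
    unfold th
    push_cast at hth
    simp only
    linarith
  rw [hth', e2] at e1
  have hE1 : E (((⟨k, by omega⟩ : Fin n) : ℤ) - ((⟨l, by omega⟩ : Fin n) : ℤ)) = 1 := by
    unfold E
    rw [if_pos]
    simp only
    rw [Int.even_sub, Int.even_coe_nat, Int.even_coe_nat]
    rw [Nat.even_add, Nat.even_add_one, Nat.even_add_one] at he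
    tauto
  have hE2 : E (((⟨k', by omega⟩ : Fin n) : ℤ) - ((⟨l', by omega⟩ : Fin n) : ℤ)) = 0 := by
    unfold E
    rw [if_neg]
    simp only
    rw [Int.even_sub, Int.even_coe_nat, Int.even_coe_nat]
    rw [Nat.even_add, Nat.even_add_one, Nat.even_add_one] at ho
    tauto
  rw [hE1, hE2] at e1
  have hn : (n : ℝ) ≠ 0 := by
    have : 0 < n := by omega
    positivity
  field_simp at e1
  norm_num at e1

end

theorem trig15 : cos (π / 5) - cos (π / 15) = cos (π / 3) - cos (4 * π / 15) := by
  have h1 : cos (π / 15) - cos (4 * π / 15) = 2 * sin (π / 6) * sin (π / 10) := by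
    rw [cos_sub_cos, show (π / 15 + 4 * π / 15) / 2 = π / 6 by ring,
      show (π / 15 - 4 * π / 15) / 2 = -(π / 10) by ring, sin_neg]
    ring
  have h2 : sin (π / 10) = 2 * cos (π / 5) ^ 2 - 1 := by
    rw [← cos_two_mul, ← cos_pi_div_two_sub]
    congr 1
    ring
  rw [sin_pi_div_six, h2, cos_pi_div_five] at h1
  rw [cos_pi_div_three, cos_pi_div_five]
  have h3 : √5 * √5 = (5 : ℝ) := Real.mul_self_sqrt (by norm_num)
  linear_combination -h1 - (1 / 8) * h3

theorem trig21 : cos (π / 3) - cos (π / 7) = cos (3 * π / 7) - cos (2 * π / 7) := by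
  have hs : sin (π / 7) ≠ 0 := (sin_pos_of_pos_of_lt_pi (by positivity) (by
    have := pi_pos; linarith)).ne'
  have h1 : 2 * sin (π / 7) * cos (π / 7) = sin (2 * π / 7) := by
    rw [← sin_two_mul]; congr 1; ring
  have h2 : 2 * sin (π / 7) * cos (2 * π / 7) = sin (3 * π / 7) - sin (π / 7) := by
    have e1 : sin (3 * π / 7) = sin (π / 7 + 2 * π / 7) := by congr 1; ring
    have e2 : sin (π / 7) = sin (2 * π / 7 - π / 7) := by congr 1; ring
    have e3 : sin (3 * π / 7) - sin (π / 7) = sin (π / 7 + 2 * π / 7) - sin (2 * π / 7 - π / 7) := by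
      rw [← e1, ← e2]
    rw [e3, sin_add, sin_sub]; ring
  have h3 : 2 * sin (π / 7) * cos (3 * π / 7) = sin (3 * π / 7) - sin (2 * π / 7) := by
    have e1 : sin (3 * π / 7) = sin (π / 7 + 3 * π / 7) := by
      rw [← sin_pi_sub]; congr 1; ring
    have e2 : sin (2 * π / 7) = sin (3 * π / 7 - π / 7) := by congr 1; ring
    have e3 : sin (3 * π / 7) - sin (2 * π / 7) = sin (π / 7 + 3 * π / 7) - sin (3 * π / 7 - π / 7) := by
      rw [← e1, ← e2]
    rw [e3, sin_add, sin_sub]; ring
  rw [cos_pi_div_three]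
  have h4 : 2 * sin (π / 7) * (cos (π / 7) - cos (2 * π / 7) + cos (3 * π / 7) - 1 / 2) = 0 := by
    linear_combination h1 - h2 + h3
  have h5 : cos (π / 7) - cos (2 * π / 7) + cos (3 * π / 7) - 1 / 2 = 0 := by
    rcases mul_eq_zero.1 h4 with h | h
    · exact absurd h (mul_ne_zero two_ne_zero hs)
    · exact h
  linarith

/-- No averaged mixing matrix of the path on `n` vertices has rank one if `n ≥ 11` and `n + 1` is
divisible by 6, 15 or 21. -/
theorem main (n : ℕ) (hn : 11 ≤ n) (hd : 6 ∣ n + 1 ∨ 15 ∣ n + 1 ∨ 21 ∣ n + 1) (f : ℝ → ℝ)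
    (h1 : ∫ s, f s = 1) : 2 ≤ (avgMixing n f).rank := by
  have hf : Integrable f := by
    by_contra h
    rw [integral_undef h] at h1
    norm_num at h1
  by_cases h6 : 6 ∣ n + 1
  · obtain ⟨M, hM⟩ := h6
    have hM2 : 2 ≤ M := by omega
    refine conflict hf h1 (M + 1) (M - 1) (3 * M) (3 * M - 1) (by omega) (by omega) (by omega)
      (by omega) (by omega) (by omega) ?_ ?_ ?_
    · rw [show M + 1 + (M - 1) = 2 * M by omega]; exact even_two_mul M
    · rw [Nat.not_even_iff_odd]; exact ⟨3 * M - 1, by omega⟩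
    · have hM0 : (M : ℝ) ≠ 0 := by positivity
      have hN : (n : ℝ) + 1 = 6 * M := by exact_mod_cast hM
      rw [hN, Nat.cast_sub (by omega), Nat.cast_sub (by omega)]
      push_cast
      set x : ℝ := π * ((M : ℝ) - 1) / (6 * M) with hx
      have a1 : π * ((M : ℝ) + 1) / (6 * M) = π / 3 - x := by
        rw [hx]; field_simp; ring
      have a2 : π * (3 * (M : ℝ)) / (6 * M) = π / 2 := by field_simp; norm_num
      have a3 : π * (3 * (M : ℝ) - 1) / (6 * M) = π / 3 + x := by
        rw [hx]; field_simp; ring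
      rw [a1, a2, a3, cos_pi_div_two, cos_sub, cos_add, cos_pi_div_three]
      ring
  · have hodd : ∀ c, n + 1 = 15 * c ∨ n + 1 = 21 * c → ¬ Even c := by
      rintro c hc ⟨d, rfl⟩
      apply h6
      rcases hc with hc | hc
      · exact ⟨5 * d, by omega⟩
      · exact ⟨7 * d, by omega⟩
    rcases hd with h | ⟨c, hc⟩ | ⟨c, hc⟩
    · exact absurd h h6
    · have ho := hodd c (Or.inl hc)
      refine conflict hf h1 (3 * c) c (5 * c) (4 * c) (by omega) (by omega) (by omega) (by omega)
        (by omega) (by omega) ?_ ?_ ?_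
      · exact ⟨2 * c, by ring⟩
      · rw [show 5 * c + 4 * c = 9 * c by ring, Nat.even_mul]
        rintro (h | h)
        · exact absurd h (by decide)
        · exact ho h
      · have hc0 : (c : ℝ) ≠ 0 := by
          have : 0 < c := by omega
          positivity
        have hN : (n : ℝ) + 1 = 15 * c := by exact_mod_cast hc
        rw [hN]
        push_cast
        have a1 : π * (3 * (c : ℝ)) / (15 * c) = π / 5 := by field_simp; norm_num
        have a2 : π * (c : ℝ) / (15 * c) = π / 15 := by field_simp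
        have a3 : π * (5 * (c : ℝ)) / (15 * c) = π / 3 := by field_simp; norm_num
        have a4 : π * (4 * (c : ℝ)) / (15 * c) = 4 * π / 15 := by field_simp
        rw [a1, a2, a3, a4, trig15]
    · have ho := hodd c (Or.inr hc)
      refine conflict hf h1 (7 * c) (3 * c) (9 * c) (6 * c) (by omega) (by omega) (by omega)
        (by omega) (by omega) (by omega) ?_ ?_ ?_
      · exact ⟨5 * c, by ring⟩
      · rw [show 9 * c + 6 * c = 15 * c by ring, Nat.even_mul]
        rintro (h | h)
        · exact absurd h (by decide)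
        · exact ho h
      · have hc0 : (c : ℝ) ≠ 0 := by
          have : 0 < c := by omega
          positivity
        have hN : (n : ℝ) + 1 = 21 * c := by exact_mod_cast hc
        rw [hN]
        push_cast
        have a1 : π * (7 * (c : ℝ)) / (21 * c) = π / 3 := by field_simp; norm_num
        have a2 : π * (3 * (c : ℝ)) / (21 * c) = π / 7 := by field_simp; norm_num
        have a3 : π * (9 * (c : ℝ)) / (21 * c) = 3 * π / 7 := by field_simp; norm_num
        have a4 : π * (6 * (c : ℝ)) / (21 * c) = 2 * π / 7 := by field_simp; norm_num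
        rw [a1, a2, a3, a4, trig21]

end Pool.Agent.R667.MM
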