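import Pool.Agent.R667.MM.Basic

/-!
# Averaged mixing matrices of paths: obstruction to rank one
-/

open Finset Real MeasureTheory

namespace Pool.Agent.R667.MM

theorem mixing_eq (n : ℕ) (t : ℝ) (a b : Fin n) :
    mixing n t a b = ∑ p, ∑ q, (S n a p * S n a q) * (S n b p * S n b q) *
      cos ((th n p - th n q) * t) := by
  unfold mixing
  rw [walk_eq, ← Complex.normSq_eq_norm_sq, Complex.normSq_apply]
  have hre : (∑ k, ((S n a k * S n k b : ℝ) : ℂ) * Complex.exp ((th n k * t : ℝ) * Complex.I)).re =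
      ∑ k, (S n a k * S n b k) * cos (th n k * t) := by
    rw [Complex.re_sum]
    refine sum_congr rfl fun k _ => ?_
    rw [Complex.re_ofReal_mul, Complex.exp_ofReal_mul_I_re, S_symm n k b]
  have him : (∑ k, ((S n a k * S n k b : ℝ) : ℂ) * Complex.exp ((th n k * t : ℝ) * Complex.I)).im =
      ∑ k, (S n a k * S n b k) * sin (th n k * t) := by
    rw [Complex.im_sum]
    refine sum_congr rfl fun k _ => ?_
    rw [Complex.im_ofReal_mul, Complex.exp_ofReal_mul_I_im, S_symm n k b]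
  rw [hre, him, sum_mul_sum, sum_mul_sum, ← sum_add_distrib]
  refine sum_congr rfl fun p _ => ?_
  rw [← sum_add_distrib]
  refine sum_congr rfl fun q _ => ?_
  rw [sub_mul, cos_sub]
  ring

theorem dl_zero {n : ℕ} {s : ℤ} (h1 : -(2 * (n + 1)) < s) (h2 : s < 2 * (n + 1)) :
    dl n s = if s = 0 then 1 else 0 := by
  unfold dl
  by_cases h0 : s = 0
  · simp [h0]
  · rw [if_neg h0, if_neg]
    intro hd
    exact h0 (Int.eq_zero_of_abs_lt_dvd hd (abs_lt.2 ⟨h1, h2⟩))

theorem dl_pos {n : ℕ} {s : ℤ} (h1 : 0 < s) (h2 : s < 4 * (n + 1)) :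
    dl n s = if s = 2 * (n + 1) then 1 else 0 := by
  unfold dl
  have e : (2 * ((n : ℤ) + 1)) ∣ s ↔ s = 2 * (n + 1) := by
    constructor
    · intro hd
      have h3 : (2 * ((n : ℤ) + 1)) ∣ (s - 2 * (n + 1)) := hd.sub (dvd_refl _)
      have := Int.eq_zero_of_abs_lt_dvd h3 (abs_lt.2 ⟨by omega, by omega⟩)
      omega
    · rintro rfl
      exact dvd_refl _
  simp only [e]

/-- The coefficients of the diagonal matrix with entries `cos (π a j / (n+1))` in the eigenbasis. -/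
noncomputable def D (n : ℕ) (j : ℤ) (p q : Fin n) : ℝ :=
  (dl n (j + (p - q)) + dl n (j - (p - q)) - dl n (j + (p + q + 2)) - dl n (j - (p + q + 2))) / 2

theorem D_small {n : ℕ} {j : ℤ} (h1 : 0 < j) (h2 : j < n) (p q : Fin n) :
    D n j p q = ((if (q : ℤ) = p + j then 1 else 0) + (if (p : ℤ) = q + j then 1 else 0) -
      (if (p : ℤ) + q + 2 = 2 * (n + 1) - j then 1 else 0) -
      (if (p : ℤ) + q + 2 = j then 1 else 0)) / 2 := by
  have hp := p.2
  have hq := q.2
  unfold D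
  rw [dl_zero (n := n) (s := j + (p - q)) (by omega) (by omega),
    dl_zero (n := n) (s := j - (p - q)) (by omega) (by omega),
    dl_pos (n := n) (s := j + (p + q + 2)) (by omega) (by omega),
    dl_zero (n := n) (s := j - (p + q + 2)) (by omega) (by omega)]
  have e1 : (j + ((p : ℤ) - q) = 0) ↔ ((q : ℤ) = p + j) := by omega
  have e2 : (j - ((p : ℤ) - q) = 0) ↔ ((p : ℤ) = q + j) := by omega
  have e3 : (j + ((p : ℤ) + q + 2) = 2 * (n + 1)) ↔ ((p : ℤ) + q + 2 = 2 * (n + 1) - j) := by omega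
  have e4 : (j - ((p : ℤ) + q + 2) = 0) ↔ ((p : ℤ) + q + 2 = j) := by omega
  simp only [e1, e2, e3, e4]

theorem dl_eq_zero {n : ℕ} {s : ℤ} (h1 : -(2 * (n + 1)) < s) (h2 : s < 4 * (n + 1)) (h3 : s ≠ 0)
    (h4 : s ≠ 2 * (n + 1)) : dl n s = 0 := by
  rcases lt_or_gt_of_ne h3 with h | h
  · rw [dl_zero h1 (by omega), if_neg h3]
  · rw [dl_pos h h2, if_neg h4]

theorem D_prod {n : ℕ} {k l : Fin n} (hkl : (l : ℕ) < k) (p q : Fin n) :
    D n ((k : ℤ) - l) p q * D n ((k : ℤ) + l + 2) p q =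
      -(1 / 4) * ((if p = k ∧ q = l then 1 else 0) + (if p = l ∧ q = k then 1 else 0) +
        (if p = Fin.rev k ∧ q = Fin.rev l then 1 else 0) +
        (if p = Fin.rev l ∧ q = Fin.rev k then 1 else 0)) := by
  have hp := p.2
  have hq := q.2
  have hk := k.2
  have hl := l.2
  rw [D_small (by omega) (by omega)]
  have c1 : (p = k ∧ q = l) ↔ ((p : ℕ) = k ∧ (q : ℕ) = l) := by rw [Fin.ext_iff, Fin.ext_iff]
  have c2 : (p = l ∧ q = k) ↔ ((p : ℕ) = l ∧ (q : ℕ) = k) := by rw [Fin.ext_iff, Fin.ext_iff]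
  have c3 : (p = Fin.rev k ∧ q = Fin.rev l) ↔ ((p : ℕ) + k + 1 = n ∧ (q : ℕ) + l + 1 = n) := by
    rw [Fin.ext_iff, Fin.ext_iff, Fin.val_rev, Fin.val_rev]; omega
  have c4 : (p = Fin.rev l ∧ q = Fin.rev k) ↔ ((p : ℕ) + l + 1 = n ∧ (q : ℕ) + k + 1 = n) := by
    rw [Fin.ext_iff, Fin.ext_iff, Fin.val_rev, Fin.val_rev]; omega
  simp only [c1, c2, c3, c4]
  by_cases hA : (q : ℤ) = p + ((k : ℤ) - l)
  · -- q = p + j
    have a2 : ¬ ((p : ℤ) = q + ((k : ℤ) - l)) := by omega
    have a3 : ¬ ((p : ℤ) + q + 2 = 2 * (n + 1) - ((k : ℤ) - l)) := by omega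
    have a4 : ¬ ((p : ℤ) + q + 2 = (k : ℤ) - l) := by omega
    rw [if_pos hA, if_neg a2, if_neg a3, if_neg a4]
    unfold D
    rw [dl_eq_zero (s := (k : ℤ) + l + 2 + (p - q)) (by omega) (by omega) (by omega) (by omega),
      dl_eq_zero (s := (k : ℤ) + l + 2 - (p - q)) (by omega) (by omega) (by omega) (by omega),
      dl_pos (s := (k : ℤ) + l + 2 + (p + q + 2)) (by omega) (by omega),
      dl_zero (s := (k : ℤ) + l + 2 - (p + q + 2)) (by omega) (by omega)]
    have b1 : ((k : ℤ) + l + 2 + (p + q + 2) = 2 * (n + 1)) ↔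
        ((p : ℕ) + k + 1 = n ∧ (q : ℕ) + l + 1 = n) := by omega
    have b2 : ((k : ℤ) + l + 2 - (p + q + 2) = 0) ↔ ((p : ℕ) = l ∧ (q : ℕ) = k) := by omega
    have b3 : ¬ ((p : ℕ) = k ∧ (q : ℕ) = l) := by omega
    have b4 : ¬ ((p : ℕ) + l + 1 = n ∧ (q : ℕ) + k + 1 = n) := by omega
    simp only [b1, b2, if_neg b3, if_neg b4]
    ring
  · by_cases hB : (p : ℤ) = q + ((k : ℤ) - l)
    · have a3 : ¬ ((p : ℤ) + q + 2 = 2 * (n + 1) - ((k : ℤ) - l)) := by omega
      have a4 : ¬ ((p : ℤ) + q + 2 = (k : ℤ) - l) := by omega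
      rw [if_neg hA, if_pos hB, if_neg a3, if_neg a4]
      unfold D
      rw [dl_eq_zero (s := (k : ℤ) + l + 2 + (p - q)) (by omega) (by omega) (by omega) (by omega),
        dl_eq_zero (s := (k : ℤ) + l + 2 - (p - q)) (by omega) (by omega) (by omega) (by omega),
        dl_pos (s := (k : ℤ) + l + 2 + (p + q + 2)) (by omega) (by omega),
        dl_zero (s := (k : ℤ) + l + 2 - (p + q + 2)) (by omega) (by omega)]
      have b1 : ((k : ℤ) + l + 2 + (p + q + 2) = 2 * (n + 1)) ↔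
          ((p : ℕ) + l + 1 = n ∧ (q : ℕ) + k + 1 = n) := by omega
      have b2 : ((k : ℤ) + l + 2 - (p + q + 2) = 0) ↔ ((p : ℕ) = k ∧ (q : ℕ) = l) := by omega
      have b3 : ¬ ((p : ℕ) = l ∧ (q : ℕ) = k) := by omega
      have b4 : ¬ ((p : ℕ) + k + 1 = n ∧ (q : ℕ) + l + 1 = n) := by omega
      simp only [b1, b2, if_neg b3, if_neg b4]
      ring
    · have b1 : ¬ ((p : ℕ) = k ∧ (q : ℕ) = l) := by omega
      have b2 : ¬ ((p : ℕ) = l ∧ (q : ℕ) = k) := by omega
      have b3 : ¬ ((p : ℕ) + k + 1 = n ∧ (q : ℕ) + l + 1 = n) := by omega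
      have b4 : ¬ ((p : ℕ) + l + 1 = n ∧ (q : ℕ) + k + 1 = n) := by omega
      rw [if_neg hA, if_neg hB, if_neg b1, if_neg b2, if_neg b3, if_neg b4]
      by_cases hC : (p : ℤ) + q + 2 = 2 * (n + 1) - ((k : ℤ) - l) ∨ (p : ℤ) + q + 2 = (k : ℤ) - l
      · have hD : D n ((k : ℤ) + l + 2) p q = 0 := by
          unfold D
          rw [dl_eq_zero (s := (k : ℤ) + l + 2 + (p - q)) (by omega) (by omega) (by omega) (by omega),
            dl_eq_zero (s := (k : ℤ) + l + 2 - (p - q)) (by omega) (by omega) (by omega) (by omega),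
            dl_eq_zero (s := (k : ℤ) + l + 2 + (p + q + 2)) (by omega) (by omega) (by omega)
              (by omega),
            dl_eq_zero (s := (k : ℤ) + l + 2 - (p + q + 2)) (by omega) (by omega) (by omega)
              (by omega)]
          norm_num
        rw [hD]
        norm_num
      · push Not at hC
        rw [if_neg hC.1, if_neg hC.2]
        norm_num

theorem th_rev (n : ℕ) (k : Fin n) : th n (Fin.rev k) = - th n k := by
  have hn : (n : ℝ) + 1 ≠ 0 := by positivity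
  have hk := k.2
  unfold th
  have e : π * (((Fin.rev k : Fin n) : ℕ) + 1 : ℝ) / (n + 1) = π - π * ((k : ℝ) + 1) / (n + 1) := by
    rw [Fin.val_rev, Nat.cast_sub (by omega)]
    push_cast
    field_simp
    ring
  rw [e, cos_pi_sub]
  ring

/-- The key identity. -/
theorem key (n : ℕ) {k l : Fin n} (hkl : (l : ℕ) < k) (t : ℝ) :
    ∑ a : Fin n, ∑ b : Fin n, cos (π * ((a : ℝ) + 1) * (((k : ℤ) - l : ℤ) : ℝ) / (n + 1)) *
      cos (π * ((b : ℝ) + 1) * (((k : ℤ) + l + 2 : ℤ) : ℝ) / (n + 1)) * mixing n t a b =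
      - cos ((th n k - th n l) * t) := by
  have h1 : ∑ a : Fin n, ∑ b : Fin n, cos (π * ((a : ℝ) + 1) * (((k : ℤ) - l : ℤ) : ℝ) / (n + 1)) *
      cos (π * ((b : ℝ) + 1) * (((k : ℤ) + l + 2 : ℤ) : ℝ) / (n + 1)) * mixing n t a b =
      ∑ p : Fin n, ∑ q : Fin n, (D n ((k : ℤ) - l) p q * D n ((k : ℤ) + l + 2) p q) *
        cos ((th n p - th n q) * t) := by
    have h2 : ∀ p q, D n ((k : ℤ) - l) p q * D n ((k : ℤ) + l + 2) p q *
        cos ((th n p - th n q) * t) = ∑ a : Fin n, ∑ b : Fin n,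
        (cos (π * ((a : ℝ) + 1) * (((k : ℤ) - l : ℤ) : ℝ) / (n + 1)) * (S n a p * S n a q)) *
        (cos (π * ((b : ℝ) + 1) * (((k : ℤ) + l + 2 : ℤ) : ℝ) / (n + 1)) * (S n b p * S n b q)) *
        cos ((th n p - th n q) * t) := by
      intro p q
      unfold D
      rw [← D_formula, ← D_formula, sum_mul_sum, sum_mul]
      exact sum_congr rfl fun a _ => by rw [sum_mul]
    rw [sum_congr rfl fun p _ => sum_congr rfl fun q _ => h2 p q]
    have h3 : ∀ a b : Fin n, cos (π * ((a : ℝ) + 1) * (((k : ℤ) - l : ℤ) : ℝ) / (n + 1)) *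
        cos (π * ((b : ℝ) + 1) * (((k : ℤ) + l + 2 : ℤ) : ℝ) / (n + 1)) * mixing n t a b =
        ∑ p, ∑ q,
        (cos (π * ((a : ℝ) + 1) * (((k : ℤ) - l : ℤ) : ℝ) / (n + 1)) * (S n a p * S n a q)) *
        (cos (π * ((b : ℝ) + 1) * (((k : ℤ) + l + 2 : ℤ) : ℝ) / (n + 1)) * (S n b p * S n b q)) *
        cos ((th n p - th n q) * t) := by
      intro a b
      rw [mixing_eq, mul_sum]
      refine sum_congr rfl fun p _ => ?_
      rw [mul_sum]
      refine sum_congr rfl fun q _ => ?_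
      ring
    rw [sum_congr rfl fun a _ => sum_congr rfl fun b _ => h3 a b]
    -- exchange sums
    rw [sum_congr rfl fun a _ => sum_comm, sum_comm]
    refine sum_congr rfl fun p _ => ?_
    rw [sum_congr rfl fun a _ => sum_comm, sum_comm]
  rw [h1]
  simp only [D_prod hkl]
  have hs : ∀ x y : Fin n, ∑ p : Fin n, ∑ q : Fin n, (if p = x ∧ q = y then (1 : ℝ) else 0) *
      cos ((th n p - th n q) * t) = cos ((th n x - th n y) * t) := by
    intro x y
    rw [sum_eq_single x]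
    · rw [sum_eq_single y]
      · simp
      · intro q _ hq
        simp [hq]
      · simp
    · intro p _ hp
      simp [hp]
    · simp
  have h4 : ∀ p q : Fin n, -(1 / 4 : ℝ) * ((if p = k ∧ q = l then 1 else 0) +
      (if p = l ∧ q = k then 1 else 0) +
        (if p = Fin.rev k ∧ q = Fin.rev l then 1 else 0) +
        (if p = Fin.rev l ∧ q = Fin.rev k then 1 else 0)) * cos ((th n p - th n q) * t) =
      -(1 / 4) * ((if p = k ∧ q = l then 1 else 0) * cos ((th n p - th n q) * t) +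
      (if p = l ∧ q = k then 1 else 0) * cos ((th n p - th n q) * t) +
        (if p = Fin.rev k ∧ q = Fin.rev l then 1 else 0) * cos ((th n p - th n q) * t) +
        (if p = Fin.rev l ∧ q = Fin.rev k then 1 else 0) * cos ((th n p - th n q) * t)) := by
    intro p q
    ring
  simp only [h4]
  simp only [← mul_sum, sum_add_distrib]
  rw [hs, hs, hs, hs, th_rev, th_rev]
  have e1 : (th n l - th n k) * t = - ((th n k - th n l) * t) := by ring
  have e2 : (-th n k - -th n l) * t = - ((th n k - th n l) * t) := by ring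
  have e3 : (-th n l - -th n k) * t = (th n k - th n l) * t := by ring
  rw [e1, e2, e3, cos_neg]
  ring

end Pool.Agent.R667.MM
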